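import Pool.Agent.Helper243.RMain

set_option autoImplicit false

namespace Pool.Agent.Results.MP_84d915_co.RdEqThree

/-- The cube graph `Q_d`: its vertices are the 0-1 strings of length `d`, and two of them are
adjacent when they differ in exactly one coordinate. -/
def Cube (d : ℕ) : SimpleGraph (Fin d → Bool) where
  Adj x y := ∃! i, x i ≠ y i
  symm := ⟨by
    rintro x y ⟨i, hi, hi'⟩
    exact ⟨i, Ne.symm hi, fun j hj => hi' j (Ne.symm hj)⟩⟩
  loopless := ⟨by
    rintro x ⟨i, hi, -⟩
    exact hi rfl⟩

/-- `F` is a 1-factor (perfect matching) of `Q_d`, as a spanning subgraph: all its edges are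
edges of `Q_d` and every vertex has exactly one neighbour in `F`. -/
def IsOneFactor (d : ℕ) (F : SimpleGraph (Fin d → Bool)) : Prop :=
  F ≤ Cube d ∧ ∀ v, ∃! w, F.Adj v w

/-- `M` is a 1-factorization of `Q_d`: a set of 1-factors such that every edge of `Q_d` lies in
exactly one of them. -/
def IsOneFactorization (d : ℕ) (M : Set (SimpleGraph (Fin d → Bool))) : Prop :=
  (∀ F ∈ M, IsOneFactor d F) ∧ ∀ x y, (Cube d).Adj x y → ∃! F, F ∈ M ∧ F.Adj x y

/-- Some 1-factorization of `Q_d` has the property that the union of every `r` distinct members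
is connected (as a spanning subgraph of `Q_d`). -/
def HasConnectedUnions (d r : ℕ) : Prop :=
  ∃ M : Set (SimpleGraph (Fin d → Bool)), IsOneFactorization d M ∧
    ∀ S : Set (SimpleGraph (Fin d → Bool)), S ⊆ M → S.ncard = r → (sSup S).Connected

/-- `r(d) = 3` for every `d ≥ 3`: the number 3 is the least positive integer `r` such that some
1-factorization of `Q_d` has all unions of `r` distinct members connected. -/
theorem result (d : ℕ) (hd : 3 ≤ d) : IsLeast {r : ℕ | 0 < r ∧ HasConnectedUnions d r} 3 :=
  Pool.Agent.Helper243.RD.main d hd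

end Pool.Agent.Results.MP_84d915_co.RdEqThree
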